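import Mathlib
import Pool.Agent.H809R4.Approx

set_option autoImplicit false

/-- Every graph of maximum degree at most two, with its vertices split into blocks of four, has a
`4`-colouring in which the vertices of every block have different colours and the number of
monochromatic edges of the graph is at most one sixth of the number of its triangles. -/
theorem Pool.Agent.Results.MP_d2bbf8_co.AlmostColouring.result :
    ∀ (V : Type) [Fintype V] [DecidableEq V] (G : SimpleGraph V) [DecidableRel G.Adj]
      (f : V → ℕ),
      (∀ v : V, G.degree v ≤ 2) →
      (∀ v : V, (Finset.univ.filter (fun w : V => f w = f v)).card = 4) →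
      ∃ c : V → Fin 4, (∀ u v, f u = f v → c u = c v → u = v) ∧
        6 * Set.ncard {e ∈ G.edgeSet | ∀ u ∈ e, ∀ v ∈ e, c u = c v} ≤
          (G.cliqueFinset 3).card := by
  intro V _ _ G _ f hdeg hf
  exact H809R4.Approx.almost G f hdeg hf
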