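import Mathlib
import Pool.Agent.H809R4.Fin

set_option autoImplicit false

/-- If a graph of maximum degree at most two has at most eleven triangles and at most three
components that are cycles of length four (and any other cycles, in any number), then adding all
edges inside disjoint blocks of four vertices gives a `4`-colourable graph. -/
theorem Pool.Agent.Results.MP_d2bbf8_co.ElevenTriangles.result :
    ∀ (V : Type) [Fintype V] [DecidableEq V] (G : SimpleGraph V) [DecidableRel G.Adj]
      (f : V → ℕ),
      (∀ v : V, G.degree v ≤ 2) →
      (∀ v : V, (Finset.univ.filter (fun w : V => f w = f v)).card = 4) →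
      (G.cliqueFinset 3).card ≤ 11 →
      Set.ncard {C : G.ConnectedComponent | C.supp.ncard = 4 ∧
        ∀ v ∈ C.supp, (G.neighborSet v).ncard = 2} ≤ 3 →
      (G ⊔ SimpleGraph.fromRel (fun v w : V => f v = f w)).Colorable 4 := by
  intro V _ _ G _ f hdeg hf h h4
  exact H809R4.colorable G f hdeg hf (Or.inr (Or.inl ⟨(H809R4.cycleCount_three G).trans h, h4⟩))
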