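import Mathlib
import Pool.Agent.H809R4.Five

set_option autoImplicit false

/-- If a graph of maximum degree at most two has at most three components that are cycles of
length four and at most five components that are cycles of length four, five or six (triangles
and cycles of length at least seven are allowed in any number), then adding all edges inside
disjoint blocks of four vertices gives a `4`-colourable graph. -/
theorem Pool.Agent.Results.MP_d2bbf8_co.FewShortCycles.result :
    ∀ (V : Type) [Fintype V] [DecidableEq V] (G : SimpleGraph V) [DecidableRel G.Adj]
      (f : V → ℕ),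
      (∀ v : V, G.degree v ≤ 2) →
      (∀ v : V, (Finset.univ.filter (fun w : V => f w = f v)).card = 4) →
      Set.ncard {C : G.ConnectedComponent | C.supp.ncard = 4 ∧
        ∀ v ∈ C.supp, (G.neighborSet v).ncard = 2} ≤ 3 →
      Set.ncard {C : G.ConnectedComponent | 4 ≤ C.supp.ncard ∧ C.supp.ncard ≤ 6 ∧
        ∀ v ∈ C.supp, (G.neighborSet v).ncard = 2} ≤ 5 →
      (G ⊔ SimpleGraph.fromRel (fun v w : V => f v = f w)).Colorable 4 := by
  intro V _ _ G _ f hdeg hf h4 h6
  exact H809R4.Five.colorable5 G f hdeg hf h4 h6
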