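import Mathlib
import Pool.Agent.H809R4.Fin

set_option autoImplicit false

/-- If a graph of maximum degree at most two has at most seven triangles (and any other cycles,
in any number), then adding all edges inside disjoint blocks of four vertices gives a
`4`-colourable graph. -/
theorem Pool.Agent.Results.MP_d2bbf8_co.SevenTriangles.result :
    ∀ (V : Type) [Fintype V] [DecidableEq V] (G : SimpleGraph V) [DecidableRel G.Adj]
      (f : V → ℕ),
      (∀ v : V, G.degree v ≤ 2) →
      (∀ v : V, (Finset.univ.filter (fun w : V => f w = f v)).card = 4) →
      (G.cliqueFinset 3).card ≤ 7 →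
      (G ⊔ SimpleGraph.fromRel (fun v w : V => f v = f w)).Colorable 4 := by
  intro V _ _ G _ f hdeg hf h
  exact H809R4.colorable G f hdeg hf (Or.inl ((H809R4.cycleCount_three G).trans h))
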